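import Pool.Agent.N931.PN.Stm2
import Pool.Agent.N674.PN.Dif

set_option autoImplicit false

/-! Project PN (helper931), DIFB: the effect of closing the edges of a block on a Lipschitz function
of the exploration path (after `Pool/Agent/N674/PN/Dif.lean`, helper674). -/

namespace Pool.Agent.N558.PN.Difb

open H974 H12S H389NS H984N H984P H342P Finset
open Pool.Agent.N116.EW Pool.Agent.N931.PN
open H342L (cdist Curve)
open Pool.Agent.N674.PN.Dif (curve_congr small)

theorem main_of (hPL : S_PL) (hS : S_STOP) : S_DIFB := by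
  classical
  intro R δ hδ hD f hfL hf1 B F hF ρ K hρ
  have hρ1 : (1 : ℝ) ≤ (ρ : ℝ) := by exact_mod_cast hρ
  have hF0 : F \ B ⊆ (R.dm δ).edges := Finset.sdiff_subset.trans hF
  have hterm : ∀ k ∈ Finset.range K,
      0 ≤ 26 * δ * 2 ^ k * ρ * ind (LG (R.dm δ) B (2 ^ k * ρ) F) :=
    fun k _ => mul_nonneg (by positivity) (ind_nonneg _)
  have hlast : 0 ≤ 2 * ind (LG (R.dm δ) B (2 ^ K * ρ) F) := mul_nonneg (by norm_num) (ind_nonneg _)
  have hfirst : 0 ≤ 13 * δ * ρ * ind (EX (R.dm δ) B F) :=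
    mul_nonneg (by positivity) (ind_nonneg _)
  have hsum := Finset.sum_nonneg hterm
  by_cases h0 : EX (R.dm δ) B F
  · by_cases hEK : LG (R.dm δ) B (2 ^ K * ρ) F
    · have h1 : |f ⟨R.curve δ F⟩ - f ⟨R.curve δ (F \ B)⟩| ≤ 2 := by
        have h2 := hf1 ⟨R.curve δ F⟩
        have h3 := hf1 ⟨R.curve δ (F \ B)⟩
        rw [abs_le] at h2 h3 ⊢
        constructor <;> linarith [h2.1, h2.2, h3.1, h3.2]
      rw [ind_of hEK]
      linarith
    · have hex : ∃ j, ¬ LG (R.dm δ) B (2 ^ j * ρ) F := ⟨K, hEK⟩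
      have hj2 := Nat.find_spec hex
      have hjK : Nat.find hex ≤ K := Nat.find_min' hex hEK
      rcases Nat.eq_zero_or_pos (Nat.find hex) with h | h
      · rw [h, pow_zero, one_mul] at hj2
        have h1 := small hPL R hδ hD hfL hF hρ hj2
        have h2 : δ * (4 * (ρ : ℝ) + 9) ≤ 13 * δ * ρ := by nlinarith
        rw [ind_of h0]
        linarith
      · obtain ⟨i, hi⟩ : ∃ i, Nat.find hex = i + 1 := ⟨Nat.find hex - 1, by omega⟩
        have hLi : LG (R.dm δ) B (2 ^ i * ρ) F := by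
          by_contra hcon
          exact Nat.find_min hex (m := i) (by omega) hcon
        rw [hi] at hj2 hjK
        have hge : 1 ≤ 2 ^ (i + 1) * ρ := Nat.mul_pos (by positivity) hρ
        have h1 := small hPL R hδ hD hfL hF hge hj2
        have hge' : (1 : ℝ) ≤ 2 ^ i * (ρ : ℝ) := by
          have h3 : (1 : ℝ) ≤ 2 ^ i := one_le_pow₀ (by norm_num)
          nlinarith
        have h2 : δ * (4 * ((2 ^ (i + 1) * ρ : ℕ) : ℝ) + 9) ≤ 26 * δ * 2 ^ i * ρ := by
          push_cast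
          have h4 : (2 : ℝ) ^ (i + 1) * (ρ : ℝ) = 2 * (2 ^ i * (ρ : ℝ)) := by ring
          rw [h4]
          have h5 : 26 * δ * 2 ^ i * (ρ : ℝ) = 26 * δ * (2 ^ i * (ρ : ℝ)) := by ring
          rw [h5]
          nlinarith
        have h3 : 26 * δ * 2 ^ i * ρ * ind (LG (R.dm δ) B (2 ^ i * ρ) F) ≤
            ∑ k ∈ Finset.range K, 26 * δ * 2 ^ k * ρ * ind (LG (R.dm δ) B (2 ^ k * ρ) F) :=
          Finset.single_le_sum hterm (Finset.mem_range.2 hjK)
        rw [ind_of hLi, mul_one] at h3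
        linarith
  · have h1 : (F \ B) ∩ JJ (R.dm δ) (F \ B) = F ∩ JJ (R.dm δ) (F \ B) := by
      ext x
      simp only [Finset.mem_inter, Finset.mem_sdiff]
      constructor
      · rintro ⟨⟨h2, _⟩, h3⟩
        exact ⟨h2, h3⟩
      · rintro ⟨h2, h3⟩
        exact ⟨⟨h2, fun h4 => h0 ⟨x, h3, h4⟩⟩, h3⟩
    obtain ⟨h2, h3⟩ := hS (R.dm δ) hD (F \ B) F hF0 hF h1
    rw [curve_congr R δ h2 h3, sub_self, abs_zero]
    linarith

/-- S_DIFB from the stopping property -/
theorem main (hS : S_STOP) : S_DIFB := main_of Pool.Agent.N839.EW.plIso hS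

end Pool.Agent.N558.PN.Difb
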